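import Mathlib
import Pool.Agent.H49.FaceDefs

/-!
Every nonseparable real Hilbert space contains a closed convex set `C` with `0 ∈ qri C` and
`fri C = ∅`.
-/

namespace Pool.Agent.Results.MP_98aad6_an.ClosedHilbert

open Set Filter Topology Pool.Agent.H49.FaceDefs
open scoped InnerProductSpace

variable {H : Type*} [NormedAddCommGroup H] [InnerProductSpace ℝ H]

/-- The closed convex set attached to a family of vectors indexed by `Γ × ℕ`. -/
def setC {Γ : Type*} (b : Γ × ℕ → H) : Set H :=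
  {x | (∀ γ n, |⟪b (γ, n), x⟫_ℝ| ≤ (1 / 2 : ℝ) ^ n) ∧ ∀ γ, 0 ≤ ∑' n, ⟪b (γ, n), x⟫_ℝ}

variable {Γ : Type*} {b : Γ × ℕ → H}

theorem summable_of_bound {f : ℕ → ℝ} (hf : ∀ n, |f n| ≤ (1 / 2 : ℝ) ^ n) : Summable f := by
  have h : Summable fun n : ℕ => (1 / 2 : ℝ) ^ n :=
    summable_geometric_of_lt_one (by norm_num) (by norm_num)
  exact Summable.of_norm_bounded h (by simpa [Real.norm_eq_abs] using hf)

theorem tsum_comb {x y : H} (hx : x ∈ setC b) (hy : y ∈ setC b) (γ : Γ) (s t : ℝ) :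
    ∑' n, ⟪b (γ, n), s • x + t • y⟫_ℝ
      = s * ∑' n, ⟪b (γ, n), x⟫_ℝ + t * ∑' n, ⟪b (γ, n), y⟫_ℝ := by
  have h1 : Summable fun n => ⟪b (γ, n), x⟫_ℝ := summable_of_bound (hx.1 γ)
  have h2 : Summable fun n => ⟪b (γ, n), y⟫_ℝ := summable_of_bound (hy.1 γ)
  rw [← tsum_mul_left, ← tsum_mul_left, ← (h1.mul_left s).tsum_add (h2.mul_left t)]
  refine tsum_congr fun n => ?_
  rw [inner_add_right, inner_smul_right, inner_smul_right]

theorem convex_setC : Convex ℝ (setC b) := by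
  intro x hx y hy s t hs ht hst
  refine ⟨fun γ n => ?_, fun γ => ?_⟩
  · rw [inner_add_right, inner_smul_right, inner_smul_right]
    calc |s * ⟪b (γ, n), x⟫_ℝ + t * ⟪b (γ, n), y⟫_ℝ|
        ≤ |s * ⟪b (γ, n), x⟫_ℝ| + |t * ⟪b (γ, n), y⟫_ℝ| := abs_add_le _ _
      _ = s * |⟪b (γ, n), x⟫_ℝ| + t * |⟪b (γ, n), y⟫_ℝ| := by
          rw [abs_mul, abs_mul, abs_of_nonneg hs, abs_of_nonneg ht]
      _ ≤ s * (1 / 2 : ℝ) ^ n + t * (1 / 2 : ℝ) ^ n := by
          gcongr
          · exact hx.1 γ n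
          · exact hy.1 γ n
      _ = (1 / 2 : ℝ) ^ n := by rw [← add_mul, hst, one_mul]
  · rw [tsum_comb hx hy]
    have := hx.2 γ
    have := hy.2 γ
    positivity

/-- the set of vectors whose coordinates on the fibre of `γ` are geometrically bounded. -/
def setK (b : Γ × ℕ → H) (γ : Γ) : Set H := {x | ∀ n, |⟪b (γ, n), x⟫_ℝ| ≤ (1 / 2 : ℝ) ^ n}

theorem isClosed_setK (γ : Γ) : IsClosed (setK b γ) := by
  have : setK b γ = ⋂ n, {x | |⟪b (γ, n), x⟫_ℝ| ≤ (1 / 2 : ℝ) ^ n} := by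
    ext x; simp [setK]
  rw [this]
  refine isClosed_iInter fun n => isClosed_le ?_ continuous_const
  fun_prop

theorem continuousOn_sum (γ : Γ) :
    ContinuousOn (fun x : H => ∑' n, ⟪b (γ, n), x⟫_ℝ) (setK b γ) := by
  refine continuousOn_tsum (u := fun n : ℕ => (1 / 2 : ℝ) ^ n) (fun n => ?_) ?_ ?_
  · have : Continuous fun x : H => ⟪b (γ, n), x⟫_ℝ := by fun_prop
    exact this.continuousOn
  · exact summable_geometric_of_lt_one (by norm_num) (by norm_num)
  · intro n x hx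
    simpa [Real.norm_eq_abs] using hx n

theorem isClosed_setC : IsClosed (setC b) := by
  have : setC b = ⋂ γ, (setK b γ ∩ (fun x : H => ∑' n, ⟪b (γ, n), x⟫_ℝ) ⁻¹' Ici 0) := by
    ext x
    simp only [setC, setK, mem_ofPred_eq, mem_iInter, mem_inter_iff, mem_preimage, mem_Ici]
    exact ⟨fun h γ => ⟨h.1 γ, h.2 γ⟩, fun h => ⟨fun γ => (h γ).1, fun γ => (h γ).2⟩⟩
  rw [this]
  exact isClosed_iInter fun γ =>
    (continuousOn_sum γ).preimage_isClosed_of_isClosed (isClosed_setK γ) isClosed_Ici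

/-- the part of `C` where the sum over the fibre of `γ` vanishes is closed. -/
theorem isClosed_part (γ : Γ) : IsClosed {z | z ∈ setC b ∧ ∑' n, ⟪b (γ, n), z⟫_ℝ = 0} := by
  have : {z | z ∈ setC b ∧ ∑' n, ⟪b (γ, n), z⟫_ℝ = 0}
      = setC b ∩ (setK b γ ∩ (fun x : H => ∑' n, ⟪b (γ, n), x⟫_ℝ) ⁻¹' {0}) := by
    ext x
    simp only [setC, setK, mem_ofPred_eq, mem_inter_iff, mem_preimage, mem_singleton_iff]
    exact ⟨fun h => ⟨h.1, h.1.1 γ, h.2⟩, fun h => ⟨h.1, h.2.2⟩⟩
  rw [this]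
  exact isClosed_setC.inter
    ((continuousOn_sum γ).preimage_isClosed_of_isClosed (isClosed_setK γ) isClosed_singleton)

theorem isFace_part (γ : Γ) : IsFace (setC b) {z | z ∈ setC b ∧ ∑' n, ⟪b (γ, n), z⟫_ℝ = 0} := by
  refine ⟨fun z hz => hz.1, ?_, ?_⟩
  · intro x hx y hy s t hs ht hst
    refine ⟨convex_setC hx.1 hy.1 hs ht hst, ?_⟩
    rw [tsum_comb hx.1 hy.1, hx.2, hy.2]; simp
  · rintro x ⟨hxC, hx0⟩ y hy z hz ⟨s, t, hs, ht, hst, rfl⟩
    rw [tsum_comb hy hz] at hx0
    have h1 := hy.2 γ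
    have h2 := hz.2 γ
    have h3 : 0 ≤ s * ∑' n, ⟪b (γ, n), y⟫_ℝ := by positivity
    have h4 : 0 ≤ t * ∑' n, ⟪b (γ, n), z⟫_ℝ := by positivity
    constructor
    · refine ⟨hy, ?_⟩
      have h5 : s * ∑' n, ⟪b (γ, n), y⟫_ℝ = 0 := by linarith
      rcases mul_eq_zero.mp h5 with h | h
      · exact absurd h hs.ne'
      · exact h
    · refine ⟨hz, ?_⟩
      have h5 : t * ∑' n, ⟪b (γ, n), z⟫_ℝ = 0 := by linarith
      rcases mul_eq_zero.mp h5 with h | h
      · exact absurd h ht.ne'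
      · exact h

theorem inner_b (hb : Orthonormal ℝ b) (i j : Γ × ℕ) [Decidable (i = j)] :
    ⟪b i, b j⟫_ℝ = if i = j then 1 else 0 := by
  classical
  have h := orthonormal_iff_ite.mp hb i j
  rw [h]
  split_ifs <;> rfl

theorem zero_mem_setC : (0 : H) ∈ setC b := by
  refine ⟨fun γ n => ?_, fun γ => ?_⟩ <;> simp

theorem b_mem_setC (hb : Orthonormal ℝ b) (γ : Γ) : b (γ, 0) ∈ setC b := by
  classical
  refine ⟨fun γ' n => ?_, fun γ' => ?_⟩
  · rw [inner_b hb]
    split_ifs with h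
    · obtain ⟨rfl, rfl⟩ := Prod.mk.inj h
      simp
    · simp
  · refine tsum_nonneg fun n => ?_
    rw [inner_b hb]
    split_ifs <;> simp

theorem b_sum (hb : Orthonormal ℝ b) (γ : Γ) : ∑' n, ⟪b (γ, n), b (γ, 0)⟫_ℝ = 1 := by
  classical
  have : ∀ n, ⟪b (γ, n), b (γ, 0)⟫_ℝ = if n = 0 then 1 else 0 := by
    intro n
    rw [inner_b hb]
    simp
  simp_rw [this]
  simp

theorem fri_setC [Uncountable Γ] (hb : Orthonormal ℝ b) : fri (setC b) = ∅ := by
  rw [eq_empty_iff_forall_notMem]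
  rintro x ⟨hx, hcl⟩
  -- a fibre on which `x` vanishes
  have hsupp : (Function.support fun i => ‖⟪b i, x⟫_ℝ‖ ^ 2).Countable :=
    (hb.inner_products_summable x).countable_support
  obtain ⟨γ, hγ⟩ : ∃ γ : Γ, ∀ n, ⟪b (γ, n), x⟫_ℝ = 0 := by
    by_contra hcon
    push Not at hcon
    have h1 : (Prod.fst '' (Function.support fun i => ‖⟪b i, x⟫_ℝ‖ ^ 2)) = univ := by
      ext γ
      simp only [mem_image, Function.mem_support, mem_univ, iff_true]
      obtain ⟨n, hn⟩ := hcon γ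
      refine ⟨(γ, n), ?_, rfl⟩
      simpa using hn
    have h2 := hsupp.image Prod.fst
    rw [h1] at h2
    exact not_countable_univ h2
  have hmem : x ∈ {z | z ∈ setC b ∧ ∑' n, ⟪b (γ, n), z⟫_ℝ = 0} := by
    refine ⟨hx, ?_⟩
    simp [hγ]
  have h1 := minFace_subset (isFace_part (b := b) γ) hmem
  have h2 := (isClosed_part (b := b) γ).closure_subset_iff.mpr h1
  have h3 := h2 (hcl (b_mem_setC hb γ))
  have h4 := h3.2
  rw [b_sum hb] at h4
  exact one_ne_zero h4

/-- the lineality space of the cone generated by `C`. -/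
def lin (b : Γ × ℕ → H) : Submodule ℝ H where
  carrier := {x | ∃ α : ℝ, 0 < α ∧ α • x ∈ setC b ∧ α • (-x) ∈ setC b}
  zero_mem' := ⟨1, one_pos, by simpa using zero_mem_setC, by simpa using zero_mem_setC⟩
  add_mem' := by
    rintro x y ⟨α, hα, hx1, hx2⟩ ⟨β, hβ, hy1, hy2⟩
    have hs : 0 < α + β := by positivity
    have hs1 : 0 ≤ β / (α + β) := by positivity
    have hs2 : 0 ≤ α / (α + β) := by positivity
    have hs3 : β / (α + β) + α / (α + β) = 1 := by field_simp; ring
    refine ⟨α * β / (α + β), by positivity, ?_, ?_⟩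
    · have := convex_setC hx1 hy1 hs1 hs2 hs3
      rw [smul_smul, smul_smul] at this
      rw [smul_add]
      convert this using 3 <;> ring
    · have := convex_setC hx2 hy2 hs1 hs2 hs3
      rw [smul_smul, smul_smul] at this
      rw [neg_add, smul_add]
      convert this using 3 <;> ring
  smul_mem' := by
    rintro c x ⟨α, hα, hx1, hx2⟩
    rcases lt_trichotomy c 0 with hc | rfl | hc
    · refine ⟨α / (-c), by apply div_pos hα; linarith, ?_, ?_⟩
      · have : (α / (-c)) • c • x = α • (-x) := by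
          rw [smul_smul, smul_neg, ← neg_smul]
          congr 1
          rw [div_neg, neg_mul, div_mul_cancel₀ _ hc.ne]
        rw [this]; exact hx2
      · have : (α / (-c)) • (-(c • x)) = α • x := by
          rw [← neg_smul, smul_smul]
          congr 1
          rw [div_neg, neg_mul_neg, div_mul_cancel₀ _ hc.ne]
        rw [this]; exact hx1
    · exact ⟨1, one_pos, by simpa using zero_mem_setC, by simpa using zero_mem_setC⟩
    · refine ⟨α / c, by positivity, ?_, ?_⟩
      · have : (α / c) • c • x = α • x := by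
          rw [smul_smul]
          congr 1
          field_simp
        rw [this]; exact hx1
      · have : (α / c) • (-(c • x)) = α • (-x) := by
          rw [← smul_neg, smul_smul]
          congr 1
          field_simp
        rw [this]; exact hx2

theorem lin_subset_coneAt : (lin b : Set H) ⊆ coneAt (setC b) 0 := by
  rintro x ⟨α, hα, hx1, -⟩
  refine ⟨α • x, hx1, α⁻¹, by positivity, ?_⟩
  rw [sub_zero, smul_smul, inv_mul_cancel₀ hα.ne', one_smul]

theorem aux_mem (hb : Orthonormal ℝ b) (γ : Γ) (n m : ℕ) :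
    ((1 / 2 : ℝ) ^ (n + m)) • (b (γ, n) - b (γ, m)) ∈ setC b := by
  classical
  refine ⟨fun γ' k => ?_, fun γ' => ?_⟩
  · rw [inner_smul_right, inner_sub_right, inner_b hb, inner_b hb, abs_mul,
      abs_of_nonneg (by positivity : (0 : ℝ) ≤ (1 / 2 : ℝ) ^ (n + m))]
    have hle : ∀ j : ℕ, j ≤ n + m → (1 / 2 : ℝ) ^ (n + m) ≤ (1 / 2 : ℝ) ^ j := fun j hj =>
      pow_le_pow_of_le_one (by norm_num) (by norm_num) hj
    have h0 : (0 : ℝ) ≤ (1 / 2 : ℝ) ^ k := by positivity
    split_ifs with h1 h2 h2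
    · simp
    · obtain ⟨rfl, rfl⟩ := Prod.mk.inj h1
      simpa using hle k (by omega)
    · obtain ⟨rfl, rfl⟩ := Prod.mk.inj h2
      simpa using hle k (by omega)
    · simp
  · have hfun : ∀ k, ⟪b (γ', k), ((1 / 2 : ℝ) ^ (n + m)) • (b (γ, n) - b (γ, m))⟫_ℝ
        = (if k = n then (if γ' = γ then (1 / 2 : ℝ) ^ (n + m) else 0) else 0)
          - (if k = m then (if γ' = γ then (1 / 2 : ℝ) ^ (n + m) else 0) else 0) := by
      intro k
      rw [inner_smul_right, inner_sub_right, inner_b hb, inner_b hb, mul_sub]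
      by_cases hγ : γ' = γ
      · subst hγ; simp
      · simp [hγ]
    simp_rw [hfun]
    have hs : ∀ j : ℕ, Summable fun k : ℕ =>
        (if k = j then (if γ' = γ then (1 / 2 : ℝ) ^ (n + m) else 0) else 0) := fun j =>
      summable_of_ne_finset_zero (s := {j}) (by
        intro k hk
        have : k ≠ j := by simpa using hk
        simp [this])
    rw [(hs n).tsum_sub (hs m), tsum_ite_eq, tsum_ite_eq, sub_self]

theorem sub_mem_lin (hb : Orthonormal ℝ b) (γ : Γ) (n m : ℕ) : b (γ, n) - b (γ, m) ∈ lin b := by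
  refine ⟨(1 / 2 : ℝ) ^ (n + m), by positivity, aux_mem hb γ n m, ?_⟩
  rw [neg_sub, add_comm]
  exact aux_mem hb γ m n

theorem lin_orthogonal (hb : Orthonormal ℝ b) : (lin b)ᗮ = ⊥ := by
  rw [Submodule.eq_bot_iff]
  intro w hw
  rw [Submodule.mem_orthogonal] at hw
  have h1 : ∀ γ n m, ⟪b (γ, n), w⟫_ℝ = ⟪b (γ, m), w⟫_ℝ := by
    intro γ n m
    have := hw _ (sub_mem_lin hb γ n m)
    rw [inner_sub_left] at this
    linarith
  have h2 : ∀ γ n, ⟪b (γ, n), w⟫_ℝ = 0 := by
    intro γ n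
    have hinj : Function.Injective fun k : ℕ => (γ, k) := fun a c h => (Prod.mk.inj h).2
    have hsum : Summable fun k : ℕ => ‖⟪b (γ, k), w⟫_ℝ‖ ^ 2 :=
      (hb.comp _ hinj).inner_products_summable w
    have hconst : (fun k : ℕ => ‖⟪b (γ, k), w⟫_ℝ‖ ^ 2) = fun _ => ‖⟪b (γ, n), w⟫_ℝ‖ ^ 2 := by
      funext k
      rw [h1 γ k n]
    rw [hconst, summable_const_iff] at hsum
    simpa using hsum
  have h3 : w ∈ lin b := by
    refine ⟨1, one_pos, ⟨fun γ n => ?_, fun γ => ?_⟩, ⟨fun γ n => ?_, fun γ => ?_⟩⟩ <;>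
      simp [h2]
  exact inner_self_eq_zero.mp (hw w h3)

theorem zero_mem_qri [CompleteSpace H] (hb : Orthonormal ℝ b) : (0 : H) ∈ qri (setC b) := by
  refine ⟨zero_mem_setC, ⊤, ?_⟩
  have h1 : (lin b).topologicalClosure = ⊤ :=
    Submodule.topologicalClosure_eq_top_iff.mpr (lin_orthogonal hb)
  have h2 : closure (lin b : Set H) = univ := by
    rw [← Submodule.topologicalClosure_coe, h1]; rfl
  rw [Submodule.top_coe]
  refine (univ_subset_iff.mp ?_).symm
  rw [← h2]
  exact closure_mono lin_subset_coneAt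

/-- **Every nonseparable real Hilbert space contains a closed convex set `C` whose quasi-relative
interior is nonempty (it contains `0`) and whose face relative interior is empty.** -/
theorem result (H : Type*) [NormedAddCommGroup H] [InnerProductSpace ℝ H] [CompleteSpace H]
    (hH : ¬ TopologicalSpace.SeparableSpace H) :
    ∃ C : Set H, Convex ℝ C ∧ IsClosed C ∧ (0 : H) ∈ qri C ∧ fri C = ∅ := by
  obtain ⟨w, b, hbw⟩ := exists_hilbertBasis ℝ H
  have hunc : Uncountable w := by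
    rw [← not_countable_iff]
    intro hcount
    apply hH
    have h1 : TopologicalSpace.IsSeparable (range b) :=
      (countable_range b).isSeparable
    have h2 : TopologicalSpace.IsSeparable (Submodule.span ℝ (range b) : Set H) := h1.span
    have h3 := h2.closure
    rw [← Submodule.topologicalClosure_coe, b.dense_span] at h3
    exact TopologicalSpace.isSeparable_univ_iff.mp h3
  have hinf : Infinite w := inferInstance
  obtain ⟨φ⟩ : Nonempty (w × ℕ ≃ w) := by
    rw [← Cardinal.eq]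
    simp
  have hb' : Orthonormal ℝ (fun i : w × ℕ => b (φ i)) := b.orthonormal.comp _ φ.injective
  exact ⟨setC fun i : w × ℕ => b (φ i), convex_setC, isClosed_setC, zero_mem_qri hb',
    fri_setC hb'⟩

end Pool.Agent.Results.MP_98aad6_an.ClosedHilbert
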