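import Mathlib
import Pool.Agent.H49.FaceDefs

/-!
In every infinite-dimensional Hausdorff real topological vector space there is a convex cone `C`
with `0 ∈ qri C` and `fri C = ∅`.
-/

namespace Pool.Agent.Results.MP_98aad6_an.LexCone

open Set Filter Topology Pool.Agent.H49.FaceDefs

variable {X : Type*} [AddCommGroup X] [Module ℝ X]

/-- The span of the first `n` vectors of the sequence `e`. -/
def V (e : ℕ → X) (n : ℕ) : Submodule ℝ X := Submodule.span ℝ (e '' Iio n)

/-- The lexicographic cone of the sequence `e`. -/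
def lexCone (e : ℕ → X) : Set X := {x | x = 0 ∨ ∃ n : ℕ, ∃ c : ℝ, 0 < c ∧ x - c • e n ∈ V e n}

theorem V_mono (e : ℕ → X) {m n : ℕ} (h : m ≤ n) : V e m ≤ V e n :=
  Submodule.span_mono (image_mono (Iio_subset_Iio h))

theorem mem_V_of_lt (e : ℕ → X) {m n : ℕ} (h : m < n) : e m ∈ V e n :=
  Submodule.subset_span (mem_image_of_mem e h)

theorem notMem_V {e : ℕ → X} (he : LinearIndependent ℝ e) {m n : ℕ} (h : n ≤ m) : e m ∉ V e n :=
  he.notMem_span_image (by simpa using h)

theorem lexCone_subset_V {e : ℕ → X} {x : X} {n : ℕ} {c : ℝ} (h : x - c • e n ∈ V e n) :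
    x ∈ V e (n + 1) := by
  have h1 : x = (x - c • e n) + c • e n := by abel
  rw [h1]
  exact (V e (n + 1)).add_mem (V_mono e (Nat.le_succ n) h)
    ((V e (n + 1)).smul_mem c (mem_V_of_lt e (Nat.lt_succ_self n)))

theorem mem_V_of_mem_lexCone {e : ℕ → X} {x : X} (hx : x ∈ lexCone e) : ∃ n, x ∈ V e n := by
  rcases hx with rfl | ⟨n, c, -, h⟩
  · exact ⟨0, (V e 0).zero_mem⟩
  · exact ⟨n + 1, lexCone_subset_V h⟩

/-- A vector of the cone outside `V n` has its leading index at least `n`. -/
theorem lead_ge {e : ℕ → X} {x : X} (hx : x ∈ lexCone e) {n : ℕ} (hn : x ∉ V e n) :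
    ∃ m : ℕ, n ≤ m ∧ ∃ c : ℝ, 0 < c ∧ x - c • e m ∈ V e m := by
  rcases hx with rfl | ⟨m, c, hc, h⟩
  · exact absurd (V e n).zero_mem hn
  · refine ⟨m, ?_, c, hc, h⟩
    by_contra hlt
    push Not at hlt
    exact hn (V_mono e hlt (lexCone_subset_V h))

theorem smul_mem_lexCone {e : ℕ → X} {x : X} (hx : x ∈ lexCone e) {a : ℝ} (ha : 0 ≤ a) :
    a • x ∈ lexCone e := by
  rcases hx with rfl | ⟨n, c, hc, h⟩
  · left; simp
  · rcases ha.eq_or_lt with rfl | ha
    · left; simp
    · right
      refine ⟨n, a * c, mul_pos ha hc, ?_⟩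
      have : a • x - (a * c) • e n = a • (x - c • e n) := by
        rw [smul_sub, smul_smul]
      rw [this]
      exact (V e n).smul_mem a h

/-- adding to a vector with leading index `n` a vector with smaller or equal leading index. -/
theorem add_mem_aux {e : ℕ → X} {x y : X} {m n : ℕ} (hmn : m ≤ n) {c d : ℝ} (hc : 0 < c)
    (hd : 0 < d) (hx : x - c • e m ∈ V e m) (hy : y - d • e n ∈ V e n) :
    ∃ b : ℝ, 0 < b ∧ (x + y) - b • e n ∈ V e n := by
  rcases hmn.eq_or_lt with rfl | hlt
  · refine ⟨c + d, by positivity, ?_⟩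
    have : x + y - (c + d) • e m = (x - c • e m) + (y - d • e m) := by
      rw [add_smul]; abel
    rw [this]
    exact (V e m).add_mem hx hy
  · refine ⟨d, hd, ?_⟩
    have : x + y - d • e n = x + (y - d • e n) := by abel
    rw [this]
    exact (V e n).add_mem (V_mono e hlt (lexCone_subset_V hx)) hy

theorem add_mem_lexCone {e : ℕ → X} {x y : X} (hx : x ∈ lexCone e) (hy : y ∈ lexCone e) :
    x + y ∈ lexCone e := by
  rcases hx with rfl | ⟨m, c, hc, hx⟩
  · simpa using hy
  rcases hy with rfl | ⟨n, d, hd, hy⟩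
  · right; exact ⟨m, c, hc, by simpa using hx⟩
  right
  rcases le_total m n with hmn | hmn
  · obtain ⟨b, hb, h⟩ := add_mem_aux hmn hc hd hx hy
    exact ⟨n, b, hb, h⟩
  · obtain ⟨b, hb, h⟩ := add_mem_aux hmn hd hc hy hx
    refine ⟨m, b, hb, ?_⟩
    rwa [add_comm] at h

theorem convex_lexCone (e : ℕ → X) : Convex ℝ (lexCone e) := by
  intro x hx y hy a b ha hb _
  exact add_mem_lexCone (smul_mem_lexCone hx ha) (smul_mem_lexCone hy hb)

/-- if the sum of two vectors of the cone lies in `V n` then so does the second one. -/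
theorem mem_V_of_add {e : ℕ → X} (he : LinearIndependent ℝ e) {x y : X} (hx : x ∈ lexCone e)
    (hy : y ∈ lexCone e) {n : ℕ} (h : x + y ∈ V e n) : y ∈ V e n := by
  by_contra hn
  obtain ⟨m, hm, d, hd, hy'⟩ := lead_ge hy hn
  -- there is a leading index `k ≥ n` for `x + y`
  have key : ∃ k, n ≤ k ∧ ∃ b : ℝ, 0 < b ∧ (x + y) - b • e k ∈ V e k := by
    rcases hx with rfl | ⟨l, c, hc, hx'⟩
    · exact ⟨m, hm, d, hd, by simpa using hy'⟩
    rcases le_total l m with hlm | hlm
    · obtain ⟨b, hb, h⟩ := add_mem_aux hlm hc hd hx' hy'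
      exact ⟨m, hm, b, hb, h⟩
    · obtain ⟨b, hb, h⟩ := add_mem_aux hlm hd hc hy' hx'
      refine ⟨l, hm.trans hlm, b, hb, ?_⟩
      rwa [add_comm] at h
  obtain ⟨k, hk, b, hb, hk'⟩ := key
  have h1 : b • e k ∈ V e k := by
    have : b • e k = (x + y) - ((x + y) - b • e k) := by abel
    rw [this]
    exact (V e k).sub_mem (V_mono e hk h) hk'
  have h2 : e k ∈ V e k := by
    have := (V e k).smul_mem b⁻¹ h1
    rwa [smul_smul, inv_mul_cancel₀ hb.ne', one_smul] at this
  exact notMem_V he le_rfl h2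

theorem isFace_V {e : ℕ → X} (he : LinearIndependent ℝ e) (n : ℕ) :
    IsFace (lexCone e) (lexCone e ∩ V e n) := by
  refine ⟨inter_subset_left, (convex_lexCone e).inter (V e n).convex, ?_⟩
  rintro x ⟨hxC, hxV⟩ y hy z hz ⟨a, b, ha, hb, hab, rfl⟩
  have hy' := smul_mem_lexCone hy ha.le
  have hz' := smul_mem_lexCone hz hb.le
  have h1 : b • z ∈ V e n := mem_V_of_add he hy' hz' hxV
  have h2 : a • y ∈ V e n := by
    refine mem_V_of_add he hz' hy' ?_
    rw [add_comm]; exact hxV
  constructor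
  · refine ⟨hy, ?_⟩
    have := (V e n).smul_mem a⁻¹ h2
    rwa [smul_smul, inv_mul_cancel₀ ha.ne', one_smul] at this
  · refine ⟨hz, ?_⟩
    have := (V e n).smul_mem b⁻¹ h1
    rwa [smul_smul, inv_mul_cancel₀ hb.ne', one_smul] at this

theorem e_mem_lexCone (e : ℕ → X) (n : ℕ) : e n ∈ lexCone e :=
  Or.inr ⟨n, 1, one_pos, by simp⟩

variable [TopologicalSpace X] [IsTopologicalAddGroup X] [ContinuousSMul ℝ X]

theorem fri_lexCone [T2Space X] {e : ℕ → X} (he : LinearIndependent ℝ e) :
    fri (lexCone e) = ∅ := by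
  rw [eq_empty_iff_forall_notMem]
  rintro x ⟨hx, hcl⟩
  obtain ⟨n, hn⟩ := mem_V_of_mem_lexCone hx
  have h1 : minFace (lexCone e) x ⊆ V e n :=
    (minFace_subset (isFace_V he n) ⟨hx, hn⟩).trans inter_subset_right
  have : FiniteDimensional ℝ (V e n) :=
    FiniteDimensional.span_of_finite ℝ ((finite_Iio n).image e)
  have h2 : IsClosed (V e n : Set X) := Submodule.closed_of_finiteDimensional _
  have h3 : closure (minFace (lexCone e) x) ⊆ V e n := h2.closure_subset_iff.mpr h1
  exact notMem_V he le_rfl (h3 (hcl (e_mem_lexCone e n)))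

theorem zero_mem_qri {e : ℕ → X} : (0 : X) ∈ qri (lexCone e) := by
  refine ⟨Or.inl rfl, (Submodule.span ℝ (range e)).topologicalClosure, ?_⟩
  rw [Submodule.topologicalClosure_coe]
  apply Subset.antisymm
  · apply closure_minimal _ isClosed_closure
    intro x hx
    -- `x ∈ V N` for some `N`
    have hN : ∃ N, x ∈ V e N := by
      induction hx using Submodule.span_induction with
      | mem x h =>
        obtain ⟨n, rfl⟩ := h
        exact ⟨n + 1, mem_V_of_lt e (Nat.lt_succ_self n)⟩
      | zero => exact ⟨0, (V e 0).zero_mem⟩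
      | add x y _ _ hx hy =>
        obtain ⟨n, hn⟩ := hx
        obtain ⟨m, hm⟩ := hy
        exact ⟨max n m, (V e _).add_mem (V_mono e (le_max_left _ _) hn)
          (V_mono e (le_max_right _ _) hm)⟩
      | smul a x _ hx =>
        obtain ⟨n, hn⟩ := hx
        exact ⟨n, (V e n).smul_mem a hn⟩
    obtain ⟨N, hN⟩ := hN
    have hlim : Tendsto (fun t : ℝ => x + t • e N) (𝓝[>] 0) (𝓝 x) := by
      have : Continuous fun t : ℝ => x + t • e N := by fun_prop
      have h := this.tendsto 0
      simp only [zero_smul, add_zero] at h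
      exact h.mono_left nhdsWithin_le_nhds
    refine mem_closure_of_tendsto hlim ?_
    filter_upwards [self_mem_nhdsWithin] with t ht
    refine ⟨x + t • e N, Or.inr ⟨N, t, ht, by simpa using hN⟩, 1, zero_le_one, by simp⟩
  · apply closure_mono
    rintro v ⟨y, hy, α, -, rfl⟩
    obtain ⟨n, hn⟩ := mem_V_of_mem_lexCone hy
    have h1 : V e n ≤ Submodule.span ℝ (range e) := Submodule.span_mono (image_subset_range e _)
    simp only [sub_zero, SetLike.mem_coe]
    exact Submodule.smul_mem _ _ (h1 hn)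

/-- **Every infinite-dimensional Hausdorff real topological vector space contains a convex cone
whose quasi-relative interior is nonempty (it contains `0`) and whose face relative interior is
empty.** -/
theorem result (X : Type*) [AddCommGroup X] [Module ℝ X] [TopologicalSpace X]
    [IsTopologicalAddGroup X] [ContinuousSMul ℝ X] [T2Space X] (hX : ¬ FiniteDimensional ℝ X) :
    ∃ C : Set X, Convex ℝ C ∧ (∀ x ∈ C, ∀ a : ℝ, 0 ≤ a → a • x ∈ C) ∧
      (0 : X) ∈ qri C ∧ fri C = ∅ := by
  obtain ⟨e, he⟩ : ∃ e : ℕ → X, LinearIndependent ℝ e := by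
    have h1 : Infinite (Module.Basis.ofVectorSpaceIndex ℝ X) := by
      rw [← not_finite_iff_infinite]
      intro hfin
      exact hX (Module.Finite.of_basis (Module.Basis.ofVectorSpace ℝ X))
    let b := Module.Basis.ofVectorSpace ℝ X
    refine ⟨fun n => b (Infinite.natEmbedding _ n), ?_⟩
    exact b.linearIndependent.comp _ (Infinite.natEmbedding _).injective
  exact ⟨lexCone e, convex_lexCone e, fun x hx a ha => smul_mem_lexCone hx ha, zero_mem_qri,
    fri_lexCone he⟩

end Pool.Agent.Results.MP_98aad6_an.LexCone
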